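import Pool.Agent.Helper89.A8.Stmts
import Pool.Agent.Helper89.A8.MTools

/-!
# A8-M18: heads of the value module of a pairing  (author: helper40)
-/

set_option autoImplicit false

namespace Pool.Agent.A8

open Matrix

theorem m18_iso_eq (h4 : S_SIM) (h5 : S_END) {a b : Ty} (e : Md a ≃ₗ[RG] Md b) : a = b := by
  rcases h5 a b e.toLinearMap with h | ⟨h, -⟩
  · exfalso
    have := h4 a
    have hnt : Nontrivial (Md a) := IsSimpleModule.nontrivial RG (Md a)
    obtain ⟨x, hx⟩ := exists_ne (0 : Md a)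
    exact hx (e.injective (by rw [map_zero]; exact h x))
  · exact h

theorem m18_exists_simple (X : Type) [AddCommGroup X] [Module RG X] [Finite X] [Nontrivial X] :
    ∃ A : Submodule RG X, IsSimpleModule RG A := by
  obtain ⟨A, hA⟩ := IsAtomic.exists_atom (Submodule RG X)
  exact ⟨A, isSimpleModule_iff_isAtom.mpr hA⟩

theorem m18_fin {X : Type} [AddCommGroup X] [Module RG X] [Finite X] (N : Submodule RG X) :
    Finite (X ⧸ N) := Finite.of_surjective _ N.mkQ_surjective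

theorem m18_key (h1 : S_UNIV) (h3 : S_UC') (h4 : S_SIM) (h5 : S_END) (h : Ty)
    (X Y S : Type) [AddCommGroup X] [Module RG X] [Finite X] [AddCommGroup Y] [Module RG Y]
    [Finite Y] [AddCommGroup S] [Module RG S] [Finite S] (hX : Free15 X) (hY : Free15 Y)
    (hS : Free15 S) (hh : Heads h Y) (hsim : IsSimpleModule RG S) (p : X →+ Y →+ S)
    (hp : Adm p) (hL : PerfL p) (hnt : Nontrivial X) :
    ∃ (a c : Ty) (m : Md a → Md h → Md c), Std3 a h c m ∧ Nonempty (S ≃ₗ[RG] Md c) := by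
  obtain ⟨A, hA⟩ := m18_exists_simple X
  let pA : A →+ Y →+ S := pcomp A.subtype LinearMap.id LinearMap.id p
  have hpA : Adm pA := pcomp_adm _ _ _ hp
  have hkL : kL hpA ⊥ = ⊥ := by
    rw [eq_bot_iff]
    intro x hx
    rw [Submodule.mem_bot]
    apply Subtype.ext
    apply hL
    intro y
    exact (Submodule.mem_bot RG).mp (hx y)
  have hAnt : Nontrivial A := IsSimpleModule.nontrivial RG A
  have hK : kR hpA ⊥ ≠ ⊤ := by
    intro hK
    obtain ⟨x, hx⟩ := exists_ne (0 : A)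
    apply hx
    apply Subtype.ext
    apply hL
    intro y
    have : y ∈ kR hpA ⊥ := by rw [hK]; trivial
    exact (Submodule.mem_bot RG).mp (this x)
  have hYnt : Nontrivial (Y ⧸ kR hpA ⊥) := Submodule.Quotient.nontrivial_iff.mpr hK
  have hfK := m18_fin (kR hpA ⊥)
  have hfA := m18_fin (kL hpA ⊥)
  have hfS := m18_fin (⊥ : Submodule RG S)
  obtain ⟨B, hB⟩ := m18_exists_simple (Y ⧸ kR hpA ⊥)
  have hBnt : Nontrivial B := IsSimpleModule.nontrivial RG B
  let eA : (A ⧸ kL hpA ⊥) ≃ₗ[RG] A := Submodule.quotEquivOfEqBot _ hkL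
  let eS : (S ⧸ (⊥ : Submodule RG S)) ≃ₗ[RG] S := Submodule.quotEquivOfEqBot _ rfl
  have hA' : IsSimpleModule RG (A ⧸ kL hpA ⊥) := IsSimpleModule.congr eA
  have hS' : IsSimpleModule RG (S ⧸ (⊥ : Submodule RG S)) := IsSimpleModule.congr eS
  obtain ⟨a, b0, c, m0, α, β0, γ, hm0, -⟩ := h1 (A ⧸ kL hpA ⊥) B (S ⧸ (⊥ : Submodule RG S))
    hA' hB hS' ((hX.sub A).quot _) ((hY.quot _).sub B) (hS.quot _)
    (pcomp LinearMap.id B.subtype LinearMap.id (qp hpA ⊥)) (pcomp_adm _ _ _ (qp_adm hpA ⊥)) (by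
      obtain ⟨b, hb⟩ := exists_ne (0 : B)
      by_contra hcon
      push Not at hcon
      apply hb
      apply Subtype.ext
      apply qp_perfR hpA ⊥
      intro x
      exact hcon x b)
  obtain ⟨b, m, β, hm, -⟩ := h3 a c (Y ⧸ kR hpA ⊥)
    (pcomp α.symm.toLinearMap LinearMap.id γ.toLinearMap (qp hpA ⊥))
    (pcomp_adm _ _ _ (qp_adm hpA ⊥)) (by
      intro y hy
      apply qp_perfR hpA ⊥
      intro x
      have := hy (α x)
      simp only [pcomp_apply, LinearEquiv.coe_coe, LinearEquiv.symm_apply_apply,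
        LinearMap.id_coe, id_eq] at this
      exact γ.injective (by rw [this, map_zero]))
  have hbs := h4 b
  have hYs : IsSimpleModule RG (Y ⧸ kR hpA ⊥) := IsSimpleModule.congr β
  have hco : IsCoatom (kR hpA ⊥) := isSimpleModule_iff_isCoatom.mp hYs
  obtain ⟨g, hg, hgk⟩ := hh _ hco
  have e1 : (Y ⧸ kR hpA ⊥) ≃ₗ[RG] Md h :=
    (Submodule.quotEquivOfEq _ _ hgk.symm).trans (LinearMap.quotKerEquivOfSurjective g hg)
  have hbh : b = h := m18_iso_eq h4 h5 (β.symm.trans e1)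
  subst hbh
  exact ⟨a, c, m, hm, ⟨eS.symm.trans γ⟩⟩

/-- **A8-M18** -/
theorem bMTH (h1 : S_UNIV) (_h2 : S_UC) (h3 : S_UC') (h4 : S_SIM) (h5 : S_END) : S_MTH := by
  intro X Y Z _ _ _ _ _ _ _ _ _ hX hY hZ hHX hHY p hp hspan N hN
  have hsim : IsSimpleModule RG (Z ⧸ N) := isSimpleModule_iff_isCoatom.mpr hN
  have hne : ∃ x y, p x y ∉ N := by
    by_contra hcon
    push Not at hcon
    exact hN.1 (hspan N hcon)
  obtain ⟨x0, y0, hxy⟩ := hne
  have hnt1 : Nontrivial (X ⧸ kL hp N) := by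
    rw [Submodule.Quotient.nontrivial_iff]
    intro h
    have : x0 ∈ kL hp N := by rw [h]; trivial
    exact hxy (this y0)
  have hnt2 : Nontrivial (Y ⧸ kR hp N) := by
    rw [Submodule.Quotient.nontrivial_iff]
    intro h
    have : y0 ∈ kR hp N := by rw [h]; trivial
    exact hxy (this x0)
  have hf1 := m18_fin (kL hp N)
  have hf2 := m18_fin (kR hp N)
  have hf3 := m18_fin N
  obtain ⟨a, c, m, hm, ⟨e⟩⟩ := m18_key h1 h3 h4 h5 .l (X ⧸ kL hp N) Y (Z ⧸ N) (hX.quot _) hY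
    (hZ.quot _) hHY hsim (pcomp LinearMap.id (kR hp N).mkQ LinearMap.id (qp hp N))
    (pcomp_adm _ _ _ (qp_adm hp N)) (by
      intro x hx
      apply qp_perfL hp N
      intro y
      obtain ⟨y, rfl⟩ := Submodule.Quotient.mk_surjective _ y
      exact hx y) hnt1
  obtain ⟨a', c', m', hm', ⟨e'⟩⟩ := m18_key h1 h3 h4 h5 .v (Y ⧸ kR hp N) X (Z ⧸ N) (hY.quot _) hX
    (hZ.quot _) hHX hsim (pcomp LinearMap.id (kL hp N).mkQ LinearMap.id (qp hp N).flip)
    (pcomp_adm _ _ _ (flip_adm (qp_adm hp N))) (by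
      intro y hy
      apply qp_perfR hp N
      intro x
      obtain ⟨x, rfl⟩ := Submodule.Quotient.mk_surjective _ x
      exact hy x) hnt2
  have hcc : c = c' := m18_iso_eq h4 h5 (e.symm.trans e')
  have hcd : c = .d := by
    subst hcc
    cases hm with
    | vl => rfl
    | dl => cases hm'
  subst hcd
  refine ⟨e.toLinearMap.comp N.mkQ, e.surjective.comp N.mkQ_surjective, ?_⟩
  rw [LinearMap.ker_comp, LinearEquiv.ker, ← LinearMap.ker, Submodule.ker_mkQ]

end Pool.Agent.A8
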