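import Pool.Agent.Helper89.A8.Stmts

/-!
# A8-M24: `A_8 ≃* GL_4(2)`   (author: helper40)
-/

set_option autoImplicit false

namespace Pool.Agent.A8

open Matrix Equiv

/-- the nonsingular vectors `Q({i, 7})` -/
def m24q : Fin 8 → V6 :=
  ![![0, 0, 1, 1, 0, 0], ![0, 1, 0, 1, 1, 0], ![0, 1, 1, 0, 1, 1], ![1, 0, 0, 1, 1, 1],
    ![1, 0, 1, 0, 0, 1], ![1, 1, 0, 1, 0, 1], ![1, 1, 1, 0, 1, 0], ![0, 0, 0, 0, 0, 0]]

/-- `g` induces `σ` on the 2-subsets -/
def M24R (σ : Perm (Fin 8)) (g : Gam) : Prop :=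
  ∀ i j, actL g.1 (m24q i + m24q j) = m24q (σ i) + m24q (σ j)

theorem m24R_one : M24R 1 1 := fun _ _ => actL_one _

theorem m24R_mul {σ τ : Perm (Fin 8)} {g h : Gam} (h1 : M24R σ g) (h2 : M24R τ h) :
    M24R (σ * τ) (g * h) := by
  intro i j
  rw [Units.val_mul, actL_mul, h2, h1]
  rfl

theorem m24R_inv {σ : Perm (Fin 8)} {g : Gam} (h1 : M24R σ g) : M24R σ⁻¹ g⁻¹ := by
  intro i j
  have h2 := h1 (σ⁻¹ i) (σ⁻¹ j)
  have e : ∀ k, σ (σ⁻¹ k) = k := fun k => σ.apply_symm_apply k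
  rw [e, e] at h2
  rw [← h2, ← actL_mul, ← Units.val_mul, inv_mul_cancel, Units.val_one, actL_one]

set_option maxRecDepth 20000 in
theorem m24_span : ∀ l : V6, ∃ s : Fin 6 → ZMod 2, l = s 0 • m24q 0 + s 1 • m24q 1 +
    s 2 • m24q 2 + s 3 • m24q 3 + s 4 • m24q 4 + s 5 • m24q 5 := by
  decide +kernel

theorem m24_zero (A : M4) : actL A 0 = 0 := by
  have := actL_add A 0 0
  rw [add_zero] at this
  exact left_eq_add.mp this

theorem m24_smul (A : M4) (c : ZMod 2) (l : V6) : actL A (c • l) = c • actL A l := by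
  have hc : c = 0 ∨ c = 1 := by revert c; decide
  rcases hc with rfl | rfl
  · simp [m24_zero]
  · simp

set_option maxRecDepth 20000 in
theorem m24_vec : ∀ (i : Fin 4) (a : V4),
    (∀ j, j ≠ i → lv (wdg (Pi.single i 1) (Pi.single j 1)) a = 0) → a = 0 ∨ a = Pi.single i 1 := by
  decide +kernel

set_option maxRecDepth 20000 in
theorem m24_ne : ∀ i j : Fin 4, j ≠ i → wdg (Pi.single i 1) (Pi.single j 1) ≠ 0 := by
  decide +kernel

theorem m24_faithful (A : M4) (h : ∀ l, actL A l = l) : A = 1 := by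
  have h1 : ∀ i, A *ᵥ (Pi.single i 1) = Pi.single i 1 := by
    intro i
    have h2 : ∀ j, wdg (A *ᵥ (Pi.single i 1)) (A *ᵥ (Pi.single j 1)) =
        wdg (Pi.single i 1) (Pi.single j 1) := fun j => by rw [← actL_wdg, h]
    rcases m24_vec i (A *ᵥ (Pi.single i 1)) (fun j hj => by rw [← h2 j, lv_wdg_self]) with h3 | h3
    · exfalso
      obtain ⟨j, hj⟩ : ∃ j : Fin 4, j ≠ i := (by decide : ∀ i : Fin 4, ∃ j : Fin 4, j ≠ i) i
      apply m24_ne i j hj
      rw [← h2 j, h3]
      funext k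
      fin_cases k <;> simp [wdg]
    · exact h3
  ext k i
  have := congrFun (h1 i) k
  rw [Matrix.mulVec_single_one] at this
  rw [Matrix.one_apply, ← Pi.single_apply]
  exact this

theorem m24_unique {σ : Perm (Fin 8)} {g h : Gam} (h1 : M24R σ g) (h2 : M24R σ h) : g = h := by
  have h3 : M24R 1 (h⁻¹ * g) := by
    have := m24R_mul (m24R_inv h2) h1
    rwa [inv_mul_cancel] at this
  have h4 : ∀ i, actL (h⁻¹ * g).1 (m24q i) = m24q i := by
    intro i
    have h5 : m24q 7 = 0 := by decide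
    have := h3 i 7
    rw [h5, add_zero] at this
    rw [this, Perm.one_apply, Perm.one_apply, h5, add_zero]
  have h5 : (h⁻¹ * g).1 = 1 := by
    apply m24_faithful
    intro l
    obtain ⟨s, rfl⟩ := m24_span l
    simp only [actL_add, m24_smul, h4]
  have h6 : h⁻¹ * g = 1 := Units.ext h5
  exact (inv_mul_eq_one.mp h6).symm

/-- the matrices for the 3-cycles `(0 k 1)` -/
def m24g : Fin 8 → Gam :=
  ![1, 1,
    mkG !![0,1,0,0; 1,1,0,0; 0,1,1,1; 1,1,1,0] !![1,1,0,0; 1,0,0,0; 0,1,0,1; 1,1,1,1]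
      (by decide) (by decide),
    mkG !![1,1,1,1; 0,0,1,0; 0,1,1,0; 1,1,0,0] !![0,1,1,1; 0,1,1,0; 0,1,0,0; 1,1,0,1]
      (by decide) (by decide),
    mkG !![1,0,1,1; 1,0,1,0; 0,1,0,1; 1,1,0,1] !![0,0,1,1; 1,1,1,0; 0,1,1,1; 1,1,0,0]
      (by decide) (by decide),
    mkG !![0,0,1,1; 0,1,1,0; 0,1,0,0; 1,1,1,1] !![1,0,1,1; 0,0,1,0; 0,1,1,0; 1,1,1,0]
      (by decide) (by decide),
    mkG !![0,1,1,1; 1,1,1,0; 0,0,1,1; 0,0,1,0] !![1,1,1,1; 1,0,1,0; 0,0,0,1; 0,0,1,1]
      (by decide) (by decide),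
    mkG !![1,1,0,0; 1,0,0,0; 0,0,0,1; 0,0,1,1] !![0,1,0,0; 1,1,0,0; 0,0,1,1; 0,0,1,0]
      (by decide) (by decide)]

set_option maxRecDepth 20000 in
theorem m24R_t : ∀ k : Fin 8, k ≠ 0 → M24R (swap 0 1 * swap 0 k) (m24g k) := by
  unfold M24R
  decide +kernel

/-- the subgroup of realised permutations -/
def m24S : Subgroup (Perm (Fin 8)) where
  carrier := {σ | ∃ g, M24R σ g}
  mul_mem' := by
    rintro σ τ ⟨g, hg⟩ ⟨h, hh⟩
    exact ⟨g * h, m24R_mul hg hh⟩
  one_mem' := ⟨1, m24R_one⟩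
  inv_mem' := by
    rintro σ ⟨g, hg⟩
    exact ⟨g⁻¹, m24R_inv hg⟩

theorem m24_pair (i j : Fin 8) (hi : i ≠ 0) (hj : j ≠ 0) : swap 0 i * swap 0 j ∈ m24S := by
  have h1 : (swap 0 1 * swap 0 i : Perm (Fin 8)) ∈ m24S := ⟨_, m24R_t i hi⟩
  have h2 : (swap 0 1 * swap 0 j : Perm (Fin 8)) ∈ m24S := ⟨_, m24R_t j hj⟩
  have h3 := m24S.mul_mem (m24S.inv_mem h1) h2
  have h4 : (swap 0 1 * swap 0 i : Perm (Fin 8))⁻¹ * (swap 0 1 * swap 0 j) =
      swap 0 i * swap 0 j := by
    rw [_root_.mul_inv_rev, swap_inv, swap_inv, mul_assoc, swap_mul_self_mul]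
  rwa [h4] at h3

theorem m24_swap (x y : Fin 8) (hx : x ≠ 0) (hy : y ≠ 0) (hxy : x ≠ y) :
    (swap x y : Perm (Fin 8)) = swap 0 x * swap 0 y * swap 0 x := by
  revert x y; decide +kernel

theorem m24_gen (σ : Perm (Fin 8)) :
    (Perm.sign σ = 1 → σ ∈ m24S) ∧ (Perm.sign σ = -1 → swap 0 1 * σ ∈ m24S) := by
  induction σ using Perm.swap_induction_on with
  | one => exact ⟨fun _ => m24S.one_mem, fun h => absurd h (by decide)⟩
  | swap_mul f x y hxy ih =>
    obtain ⟨ih1, ih2⟩ := ih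
    have hs : Perm.sign (swap x y * f) = - Perm.sign f := by
      rw [Perm.sign_mul, Perm.sign_swap hxy, neg_one_mul]
    -- first the case `x = 0`
    have key : ∀ z : Fin 8, z ≠ 0 →
        (Perm.sign (swap 0 z * f) = 1 → swap 0 z * f ∈ m24S) ∧
        (Perm.sign (swap 0 z * f) = -1 → swap 0 1 * (swap 0 z * f) ∈ m24S) := by
      intro z hz
      have hs : Perm.sign (swap 0 z * f) = - Perm.sign f := by
        rw [Perm.sign_mul, Perm.sign_swap hz.symm, neg_one_mul]
      rw [hs]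
      constructor
      · intro h
        have h1 := ih2 (by rw [← h, neg_neg])
        have h2 := m24S.mul_mem (m24_pair z 1 hz (by decide)) h1
        rwa [mul_assoc, swap_mul_self_mul] at h2
      · intro h
        have h1 := ih1 (neg_injective h)
        have h2 := m24S.mul_mem (m24_pair 1 z (by decide) hz) h1
        rwa [mul_assoc] at h2
    by_cases hx : x = 0
    · subst hx
      exact key y (fun h => hxy h.symm)
    by_cases hy : y = 0
    · subst hy
      rw [Equiv.swap_comm]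
      exact key x hx
    rw [hs, m24_swap x y hx hy hxy]
    constructor
    · intro h
      have h1 := ih2 (by rw [← h, neg_neg])
      have h2 := m24S.mul_mem (m24_pair x y hx hy) (m24S.mul_mem (m24_pair x 1 hx (by decide)) h1)
      have h3 : swap 0 x * swap 0 y * (swap 0 x * swap 0 1 * (swap 0 1 * f)) =
          swap 0 x * swap 0 y * swap 0 x * f := by
        rw [mul_assoc (swap 0 x) (swap 0 1), swap_mul_self_mul, mul_assoc _ (swap 0 x) f]
      rwa [h3] at h2
    · intro h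
      have h1 := ih1 (neg_injective h)
      have h2 := m24S.mul_mem (m24_pair 1 x (by decide) hx) (m24S.mul_mem (m24_pair y x hy hx) h1)
      have h3 : swap 0 1 * swap 0 x * (swap 0 y * swap 0 x * f) =
          swap 0 1 * (swap 0 x * swap 0 y * swap 0 x * f) := by
        simp only [mul_assoc]
      rwa [h3] at h2

theorem m24_alt (σ : alternatingGroup (Fin 8)) : ∃ g, M24R σ g :=
  (m24_gen σ).1 (Perm.mem_alternatingGroup.mp σ.2)

set_option maxRecDepth 20000 in
theorem m24_pt : ∀ a b c d : Fin 8, a ≠ b → c ≠ d → m24q a + m24q b = m24q c + m24q d →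
    a = c ∨ a = d := by
  decide +kernel

theorem m24_inj (σ : Perm (Fin 8)) (h : M24R σ 1) : σ = 1 := by
  ext1 i
  have h1 : ∀ j, j ≠ i → σ i = i ∨ σ i = j := by
    intro j hj
    have h2 := h i j
    rw [Units.val_one, actL_one] at h2
    exact m24_pt _ _ _ _ (fun he => hj (σ.injective he).symm) hj.symm h2.symm
  have h3 : ∀ i : Fin 8, ∃ j k : Fin 8, j ≠ i ∧ k ≠ i ∧ j ≠ k := by decide
  obtain ⟨j, k, hj, hk, hjk⟩ := h3 i
  rcases h1 j hj with h4 | h4
  · exact h4
  · rcases h1 k hk with h5 | h5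
    · exact h5
    · exact absurd (h4.symm.trans h5) hjk

theorem m24_card : Nat.card Gam = 20160 := by
  have := Matrix.card_GL_field (𝔽 := ZMod 2) 4
  rw [this]
  simp [Fin.prod_univ_four]

/-- **A8-M24** -/
theorem bA8 : S_A8 := by
  choose f hf using m24_alt
  let F : alternatingGroup (Fin 8) →* Gam := MonoidHom.mk' f (fun σ τ =>
    m24_unique (hf (σ * τ)) (m24R_mul (hf σ) (hf τ)))
  have hinj : Function.Injective F := by
    rw [injective_iff_map_eq_one]
    intro σ hσ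
    apply Subtype.ext
    apply m24_inj
    have : f σ = 1 := hσ
    rw [← this]
    exact hf σ
  have hcard : Nat.card (alternatingGroup (Fin 8)) = Nat.card Gam := by
    rw [m24_card]
    have := two_mul_card_alternatingGroup (α := Fin 8)
    rw [Fintype.card_perm, Fintype.card_fin] at this
    rw [Nat.card_eq_fintype_card]
    have h8 : Nat.factorial 8 = 40320 := by decide
    omega
  have hbij : Function.Bijective F := by
    have := Fintype.ofFinite Gam
    rw [Fintype.bijective_iff_injective_and_card]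
    exact ⟨hinj, by rw [← Nat.card_eq_fintype_card, ← Nat.card_eq_fintype_card, hcard]⟩
  exact ⟨MulEquiv.ofBijective F hbij⟩

end Pool.Agent.A8
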